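import Mathlib

open MvPolynomial TensorProduct Module

set_option autoImplicit false

namespace L5helper79.LQ

variable {K : Type} [Field K] [NumberField K] {σ ι : Type} [Fintype ι]

/-- substitution `X_l ↦ ∑_i b_i X_{(l,i)}` -/
noncomputable def subst (b : Basis ι ℚ K) (f : MvPolynomial σ K) : MvPolynomial (σ × ι) K :=
  bind₁ (fun l => ∑ i, C (b i) * X (l, i)) f

/-- coordinates of the substituted form -/
noncomputable def res (b : Basis ι ℚ K) (f : MvPolynomial σ K) (i : ι) : MvPolynomial (σ × ι) ℚ :=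
  ∑ m ∈ (subst b f).support, monomial m (b.repr ((subst b f).coeff m) i)

lemma sum_res (b : Basis ι ℚ K) (f : MvPolynomial σ K) :
    ∑ i, C (b i) * map (algebraMap ℚ K) (res b f i) = subst b f := by
  unfold res
  simp only [map_sum, Finset.mul_sum]
  rw [Finset.sum_comm]
  conv_rhs => rw [(subst b f).as_sum]
  refine Finset.sum_congr rfl (fun m _ => ?_)
  have h := b.sum_repr ((subst b f).coeff m)
  conv_rhs => rw [← h]
  rw [map_sum]
  refine Finset.sum_congr rfl (fun i _ => ?_)
  rw [map_monomial, C_mul_monomial, Algebra.smul_def, mul_comm]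

lemma eval_res {R : Type} [CommRing R] [Algebra ℚ R] (b : Basis ι ℚ K) (f : MvPolynomial σ K)
    (τ : K →+* R) (x : σ × ι → R) :
    ∑ i, τ (b i) * aeval x (res b f i) =
      eval₂ τ (fun l => ∑ i, τ (b i) * x (l, i)) f := by
  have h := congrArg (eval₂ τ x) (sum_res b f)
  rw [eval₂_sum] at h
  have h1 : ∀ i, eval₂ τ x (C (b i) * map (algebraMap ℚ K) (res b f i)) =
      τ (b i) * aeval x (res b f i) := by
    intro i
    rw [eval₂_mul, eval₂_C, eval₂_map]
    congr 1
    rw [aeval_def]
    congr 1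
    exact Subsingleton.elim _ _
  simp only [h1] at h
  rw [h, subst]
  rw [← coe_eval₂Hom, eval₂Hom_bind₁]
  simp only [coe_eval₂Hom]
  congr 1
  funext l
  rw [← coe_eval₂Hom, map_sum]
  simp

lemma res_homog (b : Basis ι ℚ K) {f : MvPolynomial σ K} {d : ℕ} (hf : f.IsHomogeneous d) (i : ι) :
    (res b f i).IsHomogeneous d := by
  have h1 : (subst b f).IsHomogeneous d := by
    unfold subst
    have h2 : ∀ l : σ, (∑ i, C (b i) * X (l, i) : MvPolynomial (σ × ι) K).IsHomogeneous 1 := by
      intro l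
      refine IsHomogeneous.sum _ _ _ (fun i _ => ?_)
      simpa using (isHomogeneous_C (σ × ι) (b i)).mul (isHomogeneous_X K (l, i))
    have := hf.aeval (S := K) (fun l => ∑ i, C (b i) * X (l, i)) h2
    rw [one_mul] at this
    exact this
  unfold res
  refine IsHomogeneous.sum _ _ _ (fun m hm => ?_)
  refine isHomogeneous_monomial _ ?_
  have := h1 (mem_support_iff.mp hm)
  rw [Finsupp.degree_eq_weight_one]
  exact this

instance instUnram (K : Type) [Field K] [NumberField K] : Algebra.FormallyUnramified ℚ K :=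
  Algebra.FormallyUnramified.of_isSeparable ℚ K

/-- the separability idempotent -/
noncomputable def idem (K : Type) [Field K] [NumberField K] : K ⊗[ℚ] K :=
  Algebra.FormallyUnramified.elem ℚ K

lemma idem_mul (a : K) : (1 ⊗ₜ[ℚ] a : K ⊗[ℚ] K) * idem K = (a ⊗ₜ[ℚ] 1) * idem K :=
  Algebra.FormallyUnramified.one_tmul_mul_elem (R := ℚ) a

lemma idem_lmul : Algebra.TensorProduct.lmul' ℚ (idem K) = 1 :=
  Algebra.FormallyUnramified.lmul_elem (R := ℚ) (S := K)

lemma idem_sq : idem K * idem K = idem K := by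
  have key : ∀ t : K ⊗[ℚ] K, t * idem K =
      ((Algebra.TensorProduct.lmul' ℚ t) ⊗ₜ[ℚ] (1 : K)) * idem K := by
    intro t
    induction t using TensorProduct.induction_on with
    | zero => simp
    | tmul x y =>
      have h1 : (x ⊗ₜ[ℚ] y : K ⊗[ℚ] K) = (x ⊗ₜ[ℚ] 1) * (1 ⊗ₜ[ℚ] y) := by simp
      rw [h1, mul_assoc, idem_mul, ← mul_assoc]
      congr 1
      simp
    | add x y hx hy =>
      rw [add_mul, hx, hy, map_add, TensorProduct.add_tmul, add_mul]
  have h := key (idem K)
  rw [idem_lmul] at h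
  rw [h]
  have : ((1 : K) ⊗ₜ[ℚ] (1 : K) : K ⊗[ℚ] K) = 1 := rfl
  rw [this, one_mul]

/-- coordinates of the idempotent -/
noncomputable def dual (b : Basis ι ℚ K) (i : ι) : K :=
  (Algebra.TensorProduct.basis K b).repr (idem K) i

lemma sum_dual (b : Basis ι ℚ K) : ∑ i, dual b i ⊗ₜ[ℚ] b i = idem K := by
  have h := (Algebra.TensorProduct.basis K b).sum_repr (idem K)
  conv_rhs => rw [← h]
  refine Finset.sum_congr rfl (fun i _ => ?_)
  rw [Algebra.TensorProduct.basis_apply, TensorProduct.smul_tmul']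
  simp [dual]

lemma dual_ne (b : Basis ι ℚ K) : ∃ i, dual b i ≠ 0 := by
  by_contra h
  push Not at h
  have h1 := sum_dual b
  simp only [h, TensorProduct.zero_tmul, Finset.sum_const_zero] at h1
  have h2 := idem_lmul (K := K)
  rw [← h1, map_zero] at h2
  exact zero_ne_one h2

variable {L : Type} [Field L] [Algebra K L] [Algebra ℚ L]

/-- **the dual basis trick** -/
lemma res_dual [IsScalarTower ℚ K L] (b : Basis ι ℚ K) {f : MvPolynomial σ K} {d : ℕ} (hd : 1 ≤ d)
    (hf : f.IsHomogeneous d) (P : σ → L) (i : ι) :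
    aeval (fun a : σ × ι => P a.1 * algebraMap K L (dual b a.2)) (res b f i) =
      aeval P f * algebraMap K L (dual b i) := by
  classical
  set R := L ⊗[ℚ] K with hR
  let incL : L →+* R := (Algebra.TensorProduct.includeLeft : L →ₐ[ℚ] L ⊗[ℚ] K).toRingHom
  let incR : K →+* R := (Algebra.TensorProduct.includeRight : K →ₐ[ℚ] L ⊗[ℚ] K).toRingHom
  let φ : K ⊗[ℚ] K →ₐ[ℚ] R :=
    Algebra.TensorProduct.map (IsScalarTower.toAlgHom ℚ K L) (AlgHom.id ℚ K)
  have hφ : ∀ x y : K, φ (x ⊗ₜ[ℚ] y) = (algebraMap K L x) ⊗ₜ[ℚ] y := fun x y => rfl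
  have hL : ∀ x : L, incL x = x ⊗ₜ[ℚ] (1 : K) := fun x => rfl
  have hRr : ∀ x : K, incR x = (1 : L) ⊗ₜ[ℚ] x := fun x => rfl
  set e : R := φ (idem K) with he
  have hmul : ∀ a : K, incR a * e = incL (algebraMap K L a) * e := by
    intro a
    have h := congrArg φ (idem_mul a)
    rw [map_mul, map_mul, hφ, hφ, map_one] at h
    rw [hRr, hL]
    exact h
  have hsq : e * e = e := by rw [he, ← map_mul, idem_sq]
  have hpow : ∀ n : ℕ, 1 ≤ n → e ^ n = e := by
    intro n hn
    induction n, hn using Nat.le_induction with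
    | base => simp
    | succ n _ ih => rw [pow_succ, ih, hsq]
  have hsum : ∑ j, incR (b j) * incL (algebraMap K L (dual b j)) = e := by
    rw [he, ← sum_dual b, map_sum]
    refine Finset.sum_congr rfl (fun j _ => ?_)
    rw [hφ, hRr, hL, Algebra.TensorProduct.tmul_mul_tmul, one_mul, mul_one]
  -- evaluation
  have h1 := eval_res b f incR (fun a : σ × ι => incL (P a.1 * algebraMap K L (dual b a.2)))
  have h2 : (fun l => ∑ j, incR (b j) * incL (P l * algebraMap K L (dual b j))) =
      fun l => incL (P l) * e := by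
    funext l
    rw [← hsum, Finset.mul_sum]
    refine Finset.sum_congr rfl (fun j _ => ?_)
    rw [map_mul]; ring
  have h3 : eval₂ incR (fun l => incL (P l) * e) f = incL (aeval P f) * e := by
    rw [eval₂_eq, aeval_def, eval₂_eq, map_sum, Finset.sum_mul]
    refine Finset.sum_congr rfl (fun m hm => ?_)
    have hdeg : ∑ l ∈ m.support, m l = d := by
      have := hf (mem_support_iff.mp hm)
      rw [Finsupp.weight_apply] at this
      simpa [Finsupp.sum] using this
    have h4 : ∏ l ∈ m.support, (incL (P l) * e) ^ m l =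
        incL (∏ l ∈ m.support, P l ^ m l) * e := by
      simp only [mul_pow]
      rw [Finset.prod_mul_distrib, Finset.prod_pow_eq_pow_sum, hdeg, hpow d hd, map_prod]
      simp only [map_pow]
    rw [h4, map_mul]
    calc incR (coeff m f) * (incL (∏ l ∈ m.support, P l ^ m l) * e)
        = incL (∏ l ∈ m.support, P l ^ m l) * (incR (coeff m f) * e) := by ring
      _ = _ := by rw [hmul]; ring
  rw [h2, h3, ← hsum, Finset.mul_sum] at h1
  -- coefficients
  have h5 : ∀ j, aeval (fun a : σ × ι => incL (P a.1 * algebraMap K L (dual b a.2))) (res b f j) =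
      incL (aeval (fun a : σ × ι => P a.1 * algebraMap K L (dual b a.2)) (res b f j)) := by
    intro j
    exact (MvPolynomial.comp_aeval_apply (fun a : σ × ι => P a.1 * algebraMap K L (dual b a.2))
      (Algebra.TensorProduct.includeLeft : L →ₐ[ℚ] L ⊗[ℚ] K) (res b f j)).symm
  simp only [h5] at h1
  have h7 : ∀ c : ι → L, ∑ j, c j • Algebra.TensorProduct.basis L b j =
      ∑ j, incR (b j) * incL (c j) := by
    intro c
    refine Finset.sum_congr rfl (fun j _ => ?_)
    rw [Algebra.TensorProduct.basis_apply, TensorProduct.smul_tmul', hRr, hL,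
      Algebra.TensorProduct.tmul_mul_tmul, one_mul, mul_one, smul_eq_mul, mul_one]
  have h8 : ∑ j, (aeval (fun a : σ × ι => P a.1 * algebraMap K L (dual b a.2)) (res b f j)) •
        Algebra.TensorProduct.basis L b j =
      ∑ j, (aeval P f * algebraMap K L (dual b j)) • Algebra.TensorProduct.basis L b j := by
    rw [h7, h7]
    rw [h1]
    refine Finset.sum_congr rfl (fun j _ => ?_)
    rw [map_mul]; ring
  have h9 := (Algebra.TensorProduct.basis L b).linearIndependent
  rw [Fintype.linearIndependent_iff] at h9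
  have h10 := h9 (fun j => (aeval (fun a : σ × ι => P a.1 * algebraMap K L (dual b a.2)) (res b f j)) -
    aeval P f * algebraMap K L (dual b j)) (by
      simp only [sub_smul, Finset.sum_sub_distrib]
      rw [h8, sub_self]) i
  exact sub_eq_zero.mp h10

/-- no common zero -/
lemma no_zero {N : ℕ} {d : ℕ} (b : Basis ι ℚ K) (F : Fin (N + 1) → MvPolynomial (Fin (N + 1)) K)
    (hmor : ∀ z : Fin (N + 1) → AlgebraicClosure K, (∀ i, aeval z (F i) = 0) → z = 0)
    (z : Fin (N + 1) × ι → AlgebraicClosure ℚ)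
    (hz : ∀ j i, aeval z (res b (F j) i) = 0) : z = 0 := by
  classical
  -- for every embedding the linear combinations vanish
  have h1 : ∀ (τ : K →ₐ[ℚ] AlgebraicClosure ℚ) (l : Fin (N + 1)), ∑ i, τ (b i) * z (l, i) = 0 := by
    intro τ
    have halg : Algebra.IsAlgebraic ℚ (AlgebraicClosure ℚ) := by
      convert! AlgebraicClosure.isAlgebraic ℚ
    let : Algebra K (AlgebraicClosure ℚ) := τ.toRingHom.toAlgebra
    have : IsScalarTower ℚ K (AlgebraicClosure ℚ) := IsScalarTower.of_algebraMap_eq (fun x => by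
      rw [RingHom.algebraMap_toAlgebra]; simp)
    have : Algebra.IsAlgebraic K (AlgebraicClosure ℚ) := Algebra.IsAlgebraic.tower_top K (K := ℚ)
    have hcl : IsAlgClosure K (AlgebraicClosure ℚ) := ⟨inferInstance, inferInstance⟩
    let ε : AlgebraicClosure ℚ ≃ₐ[K] AlgebraicClosure K := IsAlgClosure.equiv K _ _
    have h2 : (fun l => ε (∑ i, τ (b i) * z (l, i))) = 0 := by
      apply hmor
      intro j
      have h3 := eval_res b (F j) (τ : K →+* AlgebraicClosure ℚ) z
      simp only [hz, mul_zero, Finset.sum_const_zero] at h3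
      have h4 := MvPolynomial.comp_aeval_apply (fun l => ∑ i, τ (b i) * z (l, i))
        (ε : AlgebraicClosure ℚ →ₐ[K] AlgebraicClosure K) (F j)
      have h5 : aeval (fun l => ∑ i, τ (b i) * z (l, i)) (F j) = 0 := by
        rw [aeval_def]
        exact h3.symm
      rw [h5, map_zero] at h4
      exact h4.symm
    intro l
    have h6 := congrFun h2 l
    exact (EmbeddingLike.map_eq_zero_iff (f := ε)).mp h6
  -- invertibility
  have hcard : Fintype.card ι = Fintype.card (K →ₐ[ℚ] AlgebraicClosure ℚ) := by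
    rw [AlgHom.card, ← Module.finrank_eq_card_basis b]
  let e : ι ≃ (K →ₐ[ℚ] AlgebraicClosure ℚ) := Fintype.equivOfCardEq hcard
  have hdet : (Algebra.embeddingsMatrixReindex ℚ (AlgebraicClosure ℚ) b e).det ≠ 0 := by
    intro h0
    have h2 := Algebra.discr_eq_det_embeddingsMatrixReindex_pow_two ℚ (AlgebraicClosure ℚ) b e
    rw [h0] at h2
    have h3 := Algebra.discr_not_zero_of_basis ℚ b
    apply h3
    have : algebraMap ℚ (AlgebraicClosure ℚ) (Algebra.discr ℚ b) = 0 := by
      rw [h2]; ring
    simpa using this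
  funext a
  obtain ⟨l, i⟩ := a
  have h3 : (fun i => z (l, i)) = 0 := by
    apply Matrix.eq_zero_of_vecMul_eq_zero hdet
    funext j
    have := h1 (e j) l
    simp only [Matrix.vecMul, dotProduct, Algebra.embeddingsMatrixReindex, Matrix.reindex_apply,
      Matrix.submatrix_apply, Algebra.embeddingsMatrix_apply]
    simpa [mul_comm] using this
  exact congrFun h3 i

end L5helper79.LQ
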