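import Mathlib

open MvPolynomial NumberField Module Filter Topology

set_option autoImplicit false

namespace L5helper79.LQ

/-- the map defined by a tuple of forms over `K`, on coordinate vectors over an extension `L` -/
noncomputable def polyMap {K L : Type} [Field K] [Field L] [Algebra K L] {N : ℕ}
    (F : Fin (N + 1) → MvPolynomial (Fin (N + 1)) K) (y : Fin (N + 1) → L) : Fin (N + 1) → L :=
  fun i => aeval y (F i)

/-- `N + 1` forms of degree `d` in `N + 1` variables over `K` without common zero: a morphism
`P^N → P^N` of degree `d` over `K` -/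
structure IsMorphism (K : Type) [Field K] {N : ℕ} (d : ℕ)
    (F : Fin (N + 1) → MvPolynomial (Fin (N + 1)) K) : Prop where
  hom : ∀ i, (F i).IsHomogeneous d
  nozero : ∀ z : Fin (N + 1) → AlgebraicClosure K, (∀ i, aeval z (F i) = 0) → z = 0

/-- the dynamical Lehmer inequality for the morphism `F` over `K`: for some `C > 0` the canonical
height `h` of every wandering point with coordinates in a finite extension `L` of `K` satisfies
`h ≥ C / [L : K]`; here `Height.logHeight` is Mathlib's relative logarithmic Weil height, so that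
`logHeight / [L : ℚ]` is the absolute one -/
def Lehmer (K : Type) [Field K] [NumberField K] {N : ℕ} (d : ℕ)
    (F : Fin (N + 1) → MvPolynomial (Fin (N + 1)) K) : Prop :=
  ∃ C : ℝ, 0 < C ∧ ∀ (L : Type) [Field L] [NumberField L] [Algebra K L] (x : Fin (N + 1) → L),
    x ≠ 0 →
    (¬ ∃ m n : ℕ, m ≠ n ∧ ∃ c : L, c ≠ 0 ∧ (polyMap F)^[n] x = c • (polyMap F)^[m] x) →
    ∃ h : ℝ, Tendsto (fun n : ℕ => Height.logHeight ((polyMap F)^[n] x) /
        ((finrank ℚ L : ℝ) * (d : ℝ) ^ n)) atTop (𝓝 h) ∧ C / (finrank K L : ℝ) ≤ h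

/-- the extension to `P^M` of the polynomial map `(g_1, …, g_M)` of the affine `M`-space, given by
forms `g_k` of degree `d` in `M` variables with integer coefficients: the tuple
`(g_1, …, g_M, X_{M+1} ^ d)` of forms in `M + 1` variables -/
noncomputable def extend {M : ℕ} (d : ℕ) (g : Fin M → MvPolynomial (Fin M) ℤ) :
    Fin (M + 1) → MvPolynomial (Fin (M + 1)) ℚ :=
  Fin.snoc (α := fun _ => MvPolynomial (Fin (M + 1)) ℚ)
    (fun k => rename Fin.castSucc (map (Int.castRingHom ℚ) (g k))) (X (Fin.last M) ^ d)

end L5helper79.LQ
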