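import Pool.Agent.L5helper79.LQ.Alg
import Pool.Agent.L5helper79.LQ.Defs

open MvPolynomial NumberField Module Filter Topology

set_option autoImplicit false

namespace L5helper79.LQ

lemma aeval_smul_hom {σ A B : Type} [Field A] [Field B] [Algebra A B] {f : MvPolynomial σ A} {d : ℕ}
    (hf : f.IsHomogeneous d) (s : B) (P : σ → B) : aeval (s • P) f = s ^ d * aeval P f := by
  rw [aeval_def, eval₂_eq, aeval_def, eval₂_eq, Finset.mul_sum]
  refine Finset.sum_congr rfl (fun m hm => ?_)
  have hdeg : ∑ l ∈ m.support, m l = d := by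
    have := hf (mem_support_iff.mp hm)
    rw [Finsupp.weight_apply] at this
    simpa [Finsupp.sum] using this
  simp only [Pi.smul_apply, smul_eq_mul, mul_pow]
  rw [Finset.prod_mul_distrib, Finset.prod_pow_eq_pow_sum, hdeg]
  ring

/-- clearing denominators -/
lemma clear {M : ℕ} {τ : Type} (r : Fin M → MvPolynomial τ ℚ) :
    ∃ D : ℤ, D ≠ 0 ∧ ∃ g : Fin M → MvPolynomial τ ℤ,
      ∀ k, map (Int.castRingHom ℚ) (g k) = C (D : ℚ) * r k := by
  classical
  let s : Finset ℚ := Finset.univ.biUnion (fun k => (r k).support.image (fun m => (r k).coeff m))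
  obtain ⟨D, hD⟩ := IsLocalization.exist_integer_multiples_of_finset (nonZeroDivisors ℤ) s
  have hmem : ∀ k, ∀ m ∈ (r k).support, ∃ z : ℤ, (z : ℚ) = (D : ℤ) * (r k).coeff m := by
    intro k m hm
    obtain ⟨z, hz⟩ := hD ((r k).coeff m) (by
      simp only [s, Finset.mem_biUnion, Finset.mem_univ, true_and, Finset.mem_image]
      exact ⟨k, m, hm, rfl⟩)
    refine ⟨z, ?_⟩
    have : ((algebraMap ℤ ℚ) z) = (D : ℤ) • (r k).coeff m := hz
    simpa using this
  choose! z hz using hmem
  refine ⟨D, nonZeroDivisors.ne_zero D.2, fun k => ∑ m ∈ (r k).support, monomial m (z k m), fun k => ?_⟩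
  rw [map_sum]
  conv_rhs => rw [(r k).as_sum, Finset.mul_sum]
  refine Finset.sum_congr rfl (fun m hm => ?_)
  rw [map_monomial, C_mul_monomial]
  congr 1
  exact hz k m hm

variable {K : Type} [Field K] [NumberField K]

/-- the chosen basis -/
noncomputable def bK (K : Type) [Field K] [NumberField K] : Basis (Fin (finrank ℚ K)) ℚ K :=
  Module.finBasis ℚ K

/-- abbreviation -/
noncomputable def ev (K : Type) [Field K] [NumberField K] (N : ℕ) :
    Fin (N + 1) × Fin (finrank ℚ K) ≃ Fin ((N + 1) * finrank ℚ K) := finProdFinEquiv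

/-- the point -/
noncomputable def emb {N : ℕ} {L : Type} [Field L] [Algebra K L] (P : Fin (N + 1) → L) :
    Fin ((N + 1) * finrank ℚ K + 1) → L :=
  Fin.snoc (α := fun _ => L) (fun k => P ((ev K N).symm k).1 *
    algebraMap K L (dual (bK K) ((ev K N).symm k).2)) 0

lemma emb_cast {N : ℕ} {L : Type} [Field L] [Algebra K L] (P : Fin (N + 1) → L)
    (k : Fin ((N + 1) * finrank ℚ K)) : emb (K := K) P k.castSucc = P ((ev K N).symm k).1 *
    algebraMap K L (dual (bK K) ((ev K N).symm k).2) := by
  simp [emb, Fin.snoc_castSucc]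

lemma emb_last {N : ℕ} {L : Type} [Field L] [Algebra K L] (P : Fin (N + 1) → L) :
    emb (K := K) P (Fin.last _) = 0 := by
  simp [emb, Fin.snoc_last]

/-- the integer forms belonging to `F` -/
def Good {N : ℕ} (F : Fin (N + 1) → MvPolynomial (Fin (N + 1)) K) (D : ℤ)
    (g : Fin ((N + 1) * finrank ℚ K) → MvPolynomial (Fin ((N + 1) * finrank ℚ K)) ℤ) : Prop :=
  ∀ k, map (Int.castRingHom ℚ) (g k) = C (D : ℚ) *
    rename (ev K N) (res (bK K) (F ((ev K N).symm k).1) ((ev K N).symm k).2)

lemma exists_good {N : ℕ} (F : Fin (N + 1) → MvPolynomial (Fin (N + 1)) K) :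
    ∃ D : ℤ, D ≠ 0 ∧ ∃ g, Good F D g :=
  clear (fun k => rename (ev K N) (res (bK K) (F ((ev K N).symm k).1) ((ev K N).symm k).2))

section

variable {N d : ℕ} {F : Fin (N + 1) → MvPolynomial (Fin (N + 1)) K} {D : ℤ}
  {g : Fin ((N + 1) * finrank ℚ K) → MvPolynomial (Fin ((N + 1) * finrank ℚ K)) ℤ}

lemma aeval_g (hg : Good F D g) {R : Type} [Field R] [Algebra ℚ R]
    (z : Fin ((N + 1) * finrank ℚ K + 1) → R) (k : Fin ((N + 1) * finrank ℚ K)) :
    aeval z (extend d g k.castSucc) = (D : R) *
      aeval (fun a => z ((ev K N) a).castSucc)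
        (res (bK K) (F ((ev K N).symm k).1) ((ev K N).symm k).2) := by
  unfold extend
  rw [Fin.snoc_castSucc, hg k, map_mul, rename_C, map_mul, aeval_C, aeval_rename, aeval_rename]
  simp only [map_intCast]
  rfl

lemma aeval_last {R : Type} [Field R] [Algebra ℚ R]
    (z : Fin ((N + 1) * finrank ℚ K + 1) → R) :
    aeval z (extend d g (Fin.last _)) = z (Fin.last _) ^ d := by
  unfold extend
  rw [Fin.snoc_last, map_pow, aeval_X]

lemma morph (hd : 2 ≤ d) (hF : IsMorphism K d F) (hD : D ≠ 0) (hg : Good F D g) :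
    IsMorphism ℚ d (extend d g) := by
  constructor
  · intro i
    induction i using Fin.lastCases with
    | last =>
      unfold extend
      rw [Fin.snoc_last]
      simpa using (isHomogeneous_X ℚ (Fin.last ((N + 1) * finrank ℚ K))).pow d
    | cast k =>
      unfold extend
      rw [Fin.snoc_castSucc, hg k]
      apply IsHomogeneous.rename_isHomogeneous
      have h1 : (rename (ev K N) (res (bK K) (F ((ev K N).symm k).1) ((ev K N).symm k).2)).IsHomogeneous d :=
        (res_homog (bK K) (hF.hom _) _).rename_isHomogeneous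
      simpa using (isHomogeneous_C _ (D : ℚ)).mul h1
  · intro z hz
    have h1 : z (Fin.last _) = 0 := by
      have := hz (Fin.last _)
      rw [aeval_last] at this
      exact pow_eq_zero_iff (by omega) |>.mp this
    have h2 : (fun a => z ((ev K N) a).castSucc) = 0 := by
      apply no_zero (d := d) (bK K) F hF.nozero
      intro j i
      have h3 := hz ((ev K N) (j, i)).castSucc
      rw [aeval_g hg] at h3
      have h4 : (D : AlgebraicClosure ℚ) ≠ 0 := by exact_mod_cast hD
      have h5 := (mul_eq_zero.mp h3).resolve_left h4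
      rw [Equiv.symm_apply_apply] at h5
      convert! h5
    funext i
    induction i using Fin.lastCases with
    | last => exact h1
    | cast k =>
      have := congrFun h2 ((ev K N).symm k)
      simpa using this

variable {L : Type} [Field L] [Algebra K L] [Algebra ℚ L] [IsScalarTower ℚ K L]

lemma step (hd : 2 ≤ d) (hF : IsMorphism K d F) (hg : Good F D g) (s : L) (P : Fin (N + 1) → L) :
    polyMap (extend d g) (s • emb (K := K) P) = ((D : L) * s ^ d) • emb (K := K) (polyMap F P) := by
  funext i
  induction i using Fin.lastCases with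
  | last =>
    show aeval _ _ = _
    rw [aeval_last]
    simp only [Pi.smul_apply, emb_last, smul_eq_mul, mul_zero]
    exact zero_pow (by omega)
  | cast k =>
    show aeval _ _ = _
    rw [aeval_g hg]
    simp only [Pi.smul_apply, emb_cast, smul_eq_mul]
    have h1 : (fun a : Fin (N + 1) × Fin (finrank ℚ K) => s * (P ((ev K N).symm ((ev K N) a)).1 *
        algebraMap K L (dual (bK K) ((ev K N).symm ((ev K N) a)).2))) =
        fun a => (s • P) a.1 * algebraMap K L (dual (bK K) a.2) := by
      funext a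
      rw [Equiv.symm_apply_apply, Pi.smul_apply, smul_eq_mul, mul_assoc]
    rw [h1, res_dual (bK K) (by omega) (hF.hom _)]
    have h2 : aeval (s • P) (F ((ev K N).symm k).1) = s ^ d * aeval P (F ((ev K N).symm k).1) := by
      exact aeval_smul_hom (hF.hom _) s P
    rw [h2]
    show _ = (D : L) * s ^ d * (aeval P (F ((ev K N).symm k).1) * _)
    ring

variable [CharZero L]

lemma iter (hd : 2 ≤ d) (hF : IsMorphism K d F) (hD : D ≠ 0) (hg : Good F D g)
    (P : Fin (N + 1) → L) (n : ℕ) : ∃ s : L, s ≠ 0 ∧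
    (polyMap (extend d g))^[n] (emb (K := K) P) = s • emb (K := K) ((polyMap F)^[n] P) := by
  induction n with
  | zero => exact ⟨1, one_ne_zero, by simp⟩
  | succ n ih =>
    obtain ⟨s, hs, h⟩ := ih
    refine ⟨(D : L) * s ^ d, mul_ne_zero (by exact_mod_cast hD) (pow_ne_zero _ hs), ?_⟩
    rw [Function.iterate_succ_apply', Function.iterate_succ_apply', h, step hd hF hg]

end

section heights

variable {N d : ℕ} {F : Fin (N + 1) → MvPolynomial (Fin (N + 1)) K}
  {L : Type} [Field L] [NumberField L] [Algebra K L]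

omit [NumberField L] in
lemma dual_fun_ne : (fun i => algebraMap K L (dual (bK K) i)) ≠ 0 := by
  obtain ⟨i, hi⟩ := dual_ne (bK K)
  intro h
  have := congrFun h i
  simp only [Pi.zero_apply, map_eq_zero] at this
  exact hi this

lemma height_emb {P : Fin (N + 1) → L} (hP : P ≠ 0) :
    Height.logHeight (emb (K := K) P) = Height.logHeight P +
      Height.logHeight (fun i => algebraMap K L (dual (bK K) i)) := by
  rw [← Height.logHeight_fun_mul_eq hP (dual_fun_ne (K := K) (L := L))]
  have h1 : (fun a : Fin (N + 1) × Fin (finrank ℚ K) => P a.1 * algebraMap K L (dual (bK K) a.2)) =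
      (fun k => P ((ev K N).symm k).1 * algebraMap K L (dual (bK K) ((ev K N).symm k).2)) ∘ (ev K N) := by
    funext a; simp
  rw [h1, Height.logHeight_comp_equiv]
  rw [← Height.logHeight_sumElim_zero_eq (ι' := Fin 1) (fun k => P ((ev K N).symm k).1 *
    algebraMap K L (dual (bK K) ((ev K N).symm k).2))]
  rw [← Height.logHeight_comp_equiv (finSumFinEquiv (m := (N + 1) * finrank ℚ K) (n := 1)) (emb (K := K) P)]
  congr 1
  funext a
  rcases a with a | a
  · simp only [Function.comp_apply, finSumFinEquiv_apply_left, Sum.elim_inl]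
    exact emb_cast P a
  · simp only [Function.comp_apply, finSumFinEquiv_apply_right, Sum.elim_inr, Pi.zero_apply]
    have : Fin.natAdd ((N + 1) * finrank ℚ K) a = Fin.last _ := by
      ext; simp
    rw [this]
    exact emb_last P

lemma nozero_L (hF : IsMorphism K d F) {P : Fin (N + 1) → L} (hP : P ≠ 0) : polyMap F P ≠ 0 := by
  intro h
  apply hP
  have : Algebra.IsAlgebraic K L := Algebra.IsAlgebraic.tower_top K (K := ℚ)
  let φ : L →ₐ[K] AlgebraicClosure K := IsAlgClosed.lift
  have h1 : (fun i => φ (P i)) = 0 := by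
    apply hF.nozero
    intro i
    have h2 := congrFun h i
    have h3 := MvPolynomial.comp_aeval_apply P φ (F i)
    have h4 : aeval P (F i) = 0 := h2
    rw [h4, map_zero] at h3
    exact h3.symm
  funext i
  have := congrFun h1 i
  exact (map_eq_zero φ).mp this

lemma iter_ne (hF : IsMorphism K d F) {P : Fin (N + 1) → L} (hP : P ≠ 0) (n : ℕ) :
    (polyMap F)^[n] P ≠ 0 := by
  induction n with
  | zero => simpa using hP
  | succ n ih => rw [Function.iterate_succ_apply']; exact nozero_L hF ih

end heights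

/-- **Lehmer for the integer polynomial map over `ℚ` implies Lehmer for `F` over `K`.** -/
theorem lehmer_of {N d : ℕ} {F : Fin (N + 1) → MvPolynomial (Fin (N + 1)) K} {D : ℤ}
    {g : Fin ((N + 1) * finrank ℚ K) → MvPolynomial (Fin ((N + 1) * finrank ℚ K)) ℤ}
    (hd : 2 ≤ d) (hF : IsMorphism K d F) (hD : D ≠ 0) (hg : Good F D g)
    (h : Lehmer ℚ d (extend d g)) : Lehmer K d F := by
  obtain ⟨C, hC, h⟩ := h
  have hn : (0 : ℝ) < finrank ℚ K := by exact_mod_cast Module.finrank_pos
  refine ⟨C / finrank ℚ K, by positivity, fun L _ _ _ x hx hw => ?_⟩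
  set c : ℝ := Height.logHeight (fun i => algebraMap K L (dual (bK K) i)) with hc
  have hex : emb (K := K) x ≠ 0 := by
    obtain ⟨l, hl⟩ := Function.ne_iff.mp hx
    obtain ⟨i, hi⟩ := Function.ne_iff.mp (dual_fun_ne (K := K) (L := L))
    intro h0
    have := congrFun h0 ((ev K N) (l, i)).castSucc
    rw [emb_cast, Equiv.symm_apply_apply] at this
    rcases mul_eq_zero.mp this with h1 | h1
    · exact hl h1
    · exact hi h1
  obtain ⟨ht, hlim, hle⟩ := h L (emb (K := K) x) hex (by
    rintro ⟨m, n, hmn, c', hc', heq⟩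
    obtain ⟨s, hs, h1⟩ := iter hd hF hD hg x n
    obtain ⟨s', hs', h2⟩ := iter hd hF hD hg x m
    rw [h1, h2] at heq
    obtain ⟨i, hi⟩ := Function.ne_iff.mp (dual_fun_ne (K := K) (L := L))
    refine hw ⟨m, n, hmn, c' * s' / s, by positivity, ?_⟩
    funext l
    have h3 := congrFun heq ((ev K N) (l, i)).castSucc
    simp only [Pi.smul_apply, emb_cast, Equiv.symm_apply_apply, smul_eq_mul] at h3
    simp only [Pi.smul_apply, smul_eq_mul]
    have h4 : (s * ((polyMap F)^[n] x l) - c' * s' * ((polyMap F)^[m] x l)) *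
        algebraMap K L (dual (bK K) i) = 0 := by
      linear_combination h3
    have h5 := (mul_eq_zero.mp h4).resolve_right hi
    field_simp
    linear_combination h5)
  refine ⟨ht, ?_, ?_⟩
  · have h1 : ∀ n, Height.logHeight ((polyMap (extend d g))^[n] (emb (K := K) x)) =
        Height.logHeight ((polyMap F)^[n] x) + c := by
      intro n
      obtain ⟨s, hs, h1⟩ := iter hd hF hD hg x n
      rw [h1, Height.logHeight_smul_eq_logHeight _ hs, height_emb (iter_ne hF hx n)]
    simp only [h1] at hlim
    have hL : (0 : ℝ) < finrank ℚ L := by exact_mod_cast Module.finrank_pos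
    have h2 : Tendsto (fun n : ℕ => c / ((finrank ℚ L : ℝ) * (d : ℝ) ^ n)) atTop (𝓝 0) := by
      have h3 : Tendsto (fun n : ℕ => (d : ℝ) ^ n) atTop atTop :=
        tendsto_pow_atTop_atTop_of_one_lt (by exact_mod_cast (by omega : 1 < d))
      exact (Tendsto.const_mul_atTop hL h3).const_div_atTop c
    have h4 := hlim.sub h2
    rw [sub_zero] at h4
    refine h4.congr (fun n => ?_)
    rw [← sub_div]; congr 1; ring
  · have h1 : (finrank ℚ L : ℝ) = finrank ℚ K * finrank K L := by
      exact_mod_cast (Module.finrank_mul_finrank ℚ K L).symm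
    rw [div_div, ← h1]
    exact hle

end L5helper79.LQ
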